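import Pool.Agent.R474.PlMain

/-!
# Block parallel addition on the binary alphabet `{0, 1}`

No hypothesis is assumed.  Let `β ≈ 1.3247` be the real number with `β ^ 3 = β + 1` (the smallest
Pisot number).  Addition on the alphabet `{0, 1}` is `27`-block parallel in base `β`.
-/

set_option autoImplicit false

open Finset
open scoped Pointwise

namespace Pool.Agent.Results.MP_8e4c55_nt.BinaryAlphabet

/-- the set `A_(k)` of all `a_0 + a_1 β + … + a_(k-1) β ^ (k - 1)` with digits `a_i` in `A` -/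
def blocks (A : Set ℤ) (β : ℂ) (k : ℕ) : Set ℂ :=
  {z | ∃ a : ℕ → ℤ, (∀ i, a i ∈ A) ∧ z = ∑ i ∈ range k, (a i : ℂ) * β ^ i}

/-- the map `φ` from `D ^ ℤ` to `E ^ ℤ` is `p`-local -/
def IsLocal {D E : Set ℂ} (p : ℕ) (φ : (ℤ → D) → ℤ → E) : Prop :=
  ∃ r t : ℕ, p = r + t + 1 ∧ ∃ Φ : (Fin p → D) → E,
    ∀ (u : ℤ → D) (j : ℤ), φ u j = Φ (fun i => u (j + t - ((i : ℕ) : ℤ)))

/-- the map `φ` from `D ^ ℤ` to `E ^ ℤ` is a digit set conversion in base `β` -/
def IsConversion (β : ℂ) {D E : Set ℂ} (φ : (ℤ → D) → ℤ → E) : Prop :=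
  ∀ u : ℤ → D, {j | (u j : ℂ) ≠ 0}.Finite →
    {j | (φ u j : ℂ) ≠ 0}.Finite ∧ ∑ᶠ j : ℤ, (φ u j : ℂ) * β ^ j = ∑ᶠ j : ℤ, (u j : ℂ) * β ^ j

/-- addition on the alphabet `A` is `k`-block parallel in base `β` -/
def BlockParallelAddition (A : Set ℤ) (β : ℂ) (k : ℕ) : Prop :=
  ∃ φ : (ℤ → ↥(blocks A β k + blocks A β k)) → ℤ → ↥(blocks A β k),
    IsConversion (β ^ k) φ ∧ ∃ p : ℕ, IsLocal p φ

/-! ### the three parts of a block -/

/-- numbers with an expansion with digits `0` and `1` at places in `P` below `27` -/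
def Part (β : ℂ) (P : Finset ℕ) (z : ℂ) : Prop :=
  ∃ c : ℕ → ℤ, (∀ i, c i = 0 ∨ c i = 1) ∧ (∀ i, i ∉ P → c i = 0) ∧
    z = ∑ i ∈ range 27, (c i : ℂ) * β ^ i

lemma part_sum (β : ℂ) (P S : Finset ℕ) (hS : S ⊆ P) (hP : P ⊆ range 27) :
    Part β P (∑ i ∈ S, β ^ i) := by
  refine ⟨fun i => if i ∈ S then 1 else 0, fun i => ?_, fun i hi => ?_, ?_⟩
  · dsimp only
    split_ifs
    · exact Or.inr rfl
    · exact Or.inl rfl
  · dsimp only
    rw [if_neg fun h => hi (hS h)]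
  · have h1 : ∀ i ∈ range 27, (((if i ∈ S then 1 else 0 : ℤ)) : ℂ) * β ^ i =
        if i ∈ S then β ^ i else 0 := by
      intro i _
      split_ifs <;> simp
    rw [sum_congr rfl h1, ← sum_filter]
    refine sum_congr ?_ fun _ _ => rfl
    ext i
    rw [mem_filter]
    exact ⟨fun hi => ⟨hP (hS hi), hi⟩, fun hi => hi.2⟩

lemma part_zero (β : ℂ) (P : Finset ℕ) : Part β P 0 :=
  ⟨fun _ => 0, fun _ => Or.inl rfl, fun _ _ => rfl, by simp⟩

/-- places for the digits which come from the block below -/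
def PU : Finset ℕ := {2, 4}

/-- places for the digits which stay in their block -/
def PM : Finset ℕ := {0, 1, 3, 5, 6, 8, 10, 12, 14, 16, 18, 20, 22, 24, 26}

/-- places for the digits which come from the block above -/
def PL : Finset ℕ := {7, 9, 11, 13, 15, 17, 19, 21, 23, 25}

lemma add_parts {β x y z : ℂ} (hx : Part β PU x) (hy : Part β PM y) (hz : Part β PL z) :
    x + y + z ∈ blocks {0, 1} β 27 := by
  obtain ⟨c, hc, hc', rfl⟩ := hx
  obtain ⟨d, hd, hd', rfl⟩ := hy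
  obtain ⟨e, he, he', rfl⟩ := hz
  refine ⟨fun i => c i + d i + e i, fun i => ?_, ?_⟩
  · have h1 : i ∉ PU ∨ i ∉ PM := by
      by_contra hcon
      push Not at hcon
      have : Disjoint PU PM := by decide
      exact (Finset.disjoint_left.1 this) hcon.1 hcon.2
    have h2 : i ∉ PU ∨ i ∉ PL := by
      by_contra hcon
      push Not at hcon
      have : Disjoint PU PL := by decide
      exact (Finset.disjoint_left.1 this) hcon.1 hcon.2
    have h3 : i ∉ PM ∨ i ∉ PL := by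
      by_contra hcon
      push Not at hcon
      have : Disjoint PM PL := by decide
      exact (Finset.disjoint_left.1 this) hcon.1 hcon.2
    have k1 : c i = 0 ∨ d i = 0 := h1.imp (hc' i) (hd' i)
    have k2 : c i = 0 ∨ e i = 0 := h2.imp (hc' i) (he' i)
    have k3 : d i = 0 ∨ e i = 0 := h3.imp (hd' i) (he' i)
    have k4 := hc i
    have k5 := hd i
    have k6 := he i
    show c i + d i + e i = 0 ∨ c i + d i + e i = 1
    omega
  · rw [← sum_add_distrib, ← sum_add_distrib]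
    refine sum_congr rfl fun i _ => ?_
    push_cast
    ring

open Pool.Agent.R474.Pl in
/-- the parts of a sum of two blocks -/
lemma parts {β : ℝ} (h : Base β) (w : ℂ)
    (hw : w ∈ blocks {0, 1} (β : ℂ) 27 + blocks {0, 1} (β : ℂ) 27) :
    ∃ x y z : ℂ, Part β PU x ∧ Part β PM y ∧ Part β PL z ∧
      (β : ℂ) ^ 27 * w = (β : ℂ) ^ 27 * ((β : ℂ) ^ 27 * x) + (β : ℂ) ^ 27 * y + z ∧
      (w = 0 → x = 0 ∧ y = 0 ∧ z = 0) := by
  by_cases hw0 : w = 0
  · exact ⟨0, 0, 0, part_zero _ _, part_zero _ _, part_zero _ _, by rw [hw0]; simp,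
      fun _ => ⟨rfl, rfl, rfl⟩⟩
  obtain ⟨w1, ⟨a, ha, rfl⟩, w2, ⟨b, hb, rfl⟩, hab⟩ := Set.mem_add.1 hw
  have ha' : ∀ i, a i = 0 ∨ a i = 1 := fun i => ha i
  have hb' : ∀ i, b i = 0 ∨ b i = 1 := fun i => hb i
  obtain ⟨S1, hS1, S2, hS2, heq⟩ := decomp h (fun i => (a i + b i).toNat) (fun i => by
    have := ha' i
    have := hb' i
    show (a i + b i).toNat ≤ 2
    omega)
  have heq' : (β : ℂ) ^ 20 * w = (β : ℂ) ^ 20 * ∑ i ∈ S1, (β : ℂ) ^ i + ∑ i ∈ S2, (β : ℂ) ^ i := by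
    have h1 := congrArg (fun x : ℝ => (x : ℂ)) heq
    simp only [Complex.ofReal_add, Complex.ofReal_mul, Complex.ofReal_pow, Complex.ofReal_sum,
      Complex.ofReal_natCast] at h1
    rw [← h1, ← hab, ← sum_add_distrib]
    congr 1
    refine sum_congr rfl fun i _ => ?_
    have h2 : (((a i + b i).toNat : ℕ) : ℤ) = a i + b i := by
      have := ha' i
      have := hb' i
      omega
    have h3 : (((a i + b i).toNat : ℕ) : ℂ) = (a i : ℂ) + (b i : ℂ) := by
      rw [← Int.cast_natCast, h2]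
      push_cast
      ring
    rw [h3]
    ring
  have hr1 : ∀ i ∈ highL.toFinset, (27 ≤ i → i - 27 ∈ PU) ∧ (i < 27 → i ∈ PM ∧ 5 ≤ i) := by decide
  have hr2 : ∀ i ∈ lowE, (20 ≤ i → i - 20 ∈ PM ∧ i - 20 < 5) ∧ (i < 20 → i + 7 ∈ PL) := by decide
  have s1 : ∑ i ∈ S1, (β : ℂ) ^ i = (β : ℂ) ^ 27 * ∑ i ∈ (S1.filter (27 ≤ ·)).image (· - 27), (β : ℂ) ^ i +
      ∑ i ∈ S1.filter (· < 27), (β : ℂ) ^ i := by
    rw [sum_image (by
      intro i hi j hj hij
      have h1 := (mem_filter.1 hi).2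
      have h2 := (mem_filter.1 hj).2
      simp only at hij
      omega), mul_sum, ← sum_filter_add_sum_filter_not S1 (27 ≤ ·)]
    congr 1
    · refine sum_congr rfl fun i hi => ?_
      have h1 := (mem_filter.1 hi).2
      rw [← pow_add]
      congr 1
      omega
    · refine sum_congr ?_ fun _ _ => rfl
      ext i
      simp only [mem_filter, not_le]
  have s2 : (β : ℂ) ^ 7 * ∑ i ∈ S2, (β : ℂ) ^ i = (β : ℂ) ^ 27 * ∑ i ∈ (S2.filter (20 ≤ ·)).image (· - 20), (β : ℂ) ^ i +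
      ∑ i ∈ (S2.filter (· < 20)).image (· + 7), (β : ℂ) ^ i := by
    rw [sum_image (by
      intro i hi j hj hij
      have h1 := (mem_filter.1 hi).2
      have h2 := (mem_filter.1 hj).2
      simp only at hij
      omega), sum_image (by
      intro i hi j hj hij
      simp only at hij
      omega), mul_sum, ← sum_filter_add_sum_filter_not S2 (20 ≤ ·), mul_sum]
    congr 1
    · refine sum_congr rfl fun i hi => ?_
      have h1 := (mem_filter.1 hi).2
      rw [← pow_add, ← pow_add]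
      congr 1
      omega
    · refine sum_congr ?_ fun i _ => ?_
      · ext i
        simp only [mem_filter, not_le]
      · rw [← pow_add, Nat.add_comm]
  have hdis : Disjoint (S1.filter (· < 27)) ((S2.filter (20 ≤ ·)).image (· - 20)) := by
    rw [Finset.disjoint_left]
    intro i hi hj
    obtain ⟨hi1, hi2⟩ := mem_filter.1 hi
    obtain ⟨j, hj1, rfl⟩ := mem_image.1 hj
    obtain ⟨hj2, hj3⟩ := mem_filter.1 hj1
    have h1 := ((hr1 _ (hS1 hi1)).2 hi2).2
    have h2 := ((hr2 _ (hS2 hj2)).1 hj3).2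
    omega
  refine ⟨∑ i ∈ (S1.filter (27 ≤ ·)).image (· - 27), (β : ℂ) ^ i,
    ∑ i ∈ S1.filter (· < 27) ∪ (S2.filter (20 ≤ ·)).image (· - 20), (β : ℂ) ^ i,
    ∑ i ∈ (S2.filter (· < 20)).image (· + 7), (β : ℂ) ^ i,
    part_sum _ _ _ ?_ (by decide), part_sum _ _ _ ?_ (by decide), part_sum _ _ _ ?_ (by decide),
    ?_, fun h0 => absurd h0 hw0⟩
  · intro i hi
    obtain ⟨j, hj1, rfl⟩ := mem_image.1 hi
    obtain ⟨hj2, hj3⟩ := mem_filter.1 hj1
    exact (hr1 _ (hS1 hj2)).1 hj3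
  · intro i hi
    rcases mem_union.1 hi with hi | hi
    · obtain ⟨hi1, hi2⟩ := mem_filter.1 hi
      exact ((hr1 _ (hS1 hi1)).2 hi2).1
    · obtain ⟨j, hj1, rfl⟩ := mem_image.1 hi
      obtain ⟨hj2, hj3⟩ := mem_filter.1 hj1
      exact ((hr2 _ (hS2 hj2)).1 hj3).1
  · intro i hi
    obtain ⟨j, hj1, rfl⟩ := mem_image.1 hi
    obtain ⟨hj2, hj3⟩ := mem_filter.1 hj1
    exact (hr2 _ (hS2 hj2)).2 hj3
  · rw [sum_union hdis]
    have e1 : (β : ℂ) ^ 27 * w = (β : ℂ) ^ 7 * ((β : ℂ) ^ 20 * w) := by ring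
    rw [e1, heq', mul_add, s2, s1]
    ring

open Pool.Agent.R474.Pl in
/-- Addition on `{0, 1}` is block parallel in the base `β`. -/
theorem main {β : ℝ} (h : Base β) : BlockParallelAddition {0, 1} (β : ℂ) 27 := by
  have hβ : (β : ℂ) ≠ 0 := by exact_mod_cast h.pos.ne'
  choose X Y Z hX hY hZ heq hzero using fun w : ↥(blocks {0, 1} (β : ℂ) 27 + blocks {0, 1} (β : ℂ) 27) =>
    parts h w.1 w.2
  refine ⟨fun u j => ⟨X (u (j - 1)) + Y (u j) + Z (u (j + 1)),
    add_parts (hX _) (hY _) (hZ _)⟩, ?_, 3, 1, 1, rfl,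
    fun v => ⟨X (v 2) + Y (v 1) + Z (v 0), add_parts (hX _) (hY _) (hZ _)⟩, fun u j => ?_⟩
  · intro u hu
    set γ : ℂ := (β : ℂ) ^ 27 with hγ
    have hγ0 : γ ≠ 0 := pow_ne_zero _ hβ
    have fX : {j : ℤ | X (u j) ≠ 0}.Finite := hu.subset fun j hj h0 => hj (hzero _ h0).1
    have fY : {j : ℤ | Y (u j) ≠ 0}.Finite := hu.subset fun j hj h0 => hj (hzero _ h0).2.1
    have fZ : {j : ℤ | Z (u j) ≠ 0}.Finite := hu.subset fun j hj h0 => hj (hzero _ h0).2.2
    have fX' : {j : ℤ | X (u (j - 1)) ≠ 0}.Finite :=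
      fX.preimage (f := fun j : ℤ => j - 1) (fun a _ b _ hab => by simpa using hab)
    have fZ' : {j : ℤ | Z (u (j + 1)) ≠ 0}.Finite :=
      fZ.preimage (f := fun j : ℤ => j + 1) (fun a _ b _ hab => by simpa using hab)
    have g1 : (Function.support fun j : ℤ => X (u (j - 1)) * γ ^ j).Finite :=
      fX'.subset fun j hj h0 => hj (by simp only [h0, zero_mul])
    have g2 : (Function.support fun j : ℤ => Y (u j) * γ ^ j).Finite :=
      fY.subset fun j hj h0 => hj (by simp only [h0, zero_mul])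
    have g3 : (Function.support fun j : ℤ => Z (u (j + 1)) * γ ^ j).Finite :=
      fZ'.subset fun j hj h0 => hj (by simp only [h0, zero_mul])
    have g4 : (Function.support fun j : ℤ => X (u j) * γ ^ (j + 1)).Finite :=
      fX.subset fun j hj h0 => hj (by simp only [h0, zero_mul])
    have g5 : (Function.support fun j : ℤ => Z (u j) * γ ^ (j - 1)).Finite :=
      fZ.subset fun j hj h0 => hj (by simp only [h0, zero_mul])
    refine ⟨((fX'.union fY).union fZ').subset fun j hj => ?_, ?_⟩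
    · by_contra hcon
      simp only [Set.mem_union, Set.mem_ofPred_eq, not_or, not_not] at hcon
      apply hj
      show X (u (j - 1)) + Y (u j) + Z (u (j + 1)) = 0
      rw [hcon.1.1, hcon.1.2, hcon.2]
      simp
    · have e1 : ∑ᶠ j : ℤ, (X (u (j - 1)) + Y (u j) + Z (u (j + 1))) * γ ^ j =
          ∑ᶠ j : ℤ, X (u (j - 1)) * γ ^ j + ∑ᶠ j : ℤ, Y (u j) * γ ^ j +
            ∑ᶠ j : ℤ, Z (u (j + 1)) * γ ^ j := by
        rw [← finsum_add_distrib g1 g2, ← finsum_add_distrib (g1.union g2 |>.subset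
          (Function.support_add _ _)) g3]
        refine finsum_congr fun j => ?_
        ring
      have e2 : ∑ᶠ j : ℤ, X (u (j - 1)) * γ ^ j = ∑ᶠ j : ℤ, X (u j) * γ ^ (j + 1) := by
        rw [← finsum_comp_equiv (Equiv.addRight (1 : ℤ))]
        refine finsum_congr fun j => ?_
        simp
      have e3 : ∑ᶠ j : ℤ, Z (u (j + 1)) * γ ^ j = ∑ᶠ j : ℤ, Z (u j) * γ ^ (j - 1) := by
        rw [← finsum_comp_equiv (Equiv.addRight (-1 : ℤ))]
        refine finsum_congr fun j => ?_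
        simp [sub_eq_add_neg]
      show ∑ᶠ j : ℤ, (X (u (j - 1)) + Y (u j) + Z (u (j + 1))) * γ ^ j =
        ∑ᶠ j : ℤ, (u j : ℂ) * γ ^ j
      rw [e1, e2, e3, ← finsum_add_distrib g4 g2, ← finsum_add_distrib (g4.union g2 |>.subset
          (Function.support_add _ _)) g5]
      refine finsum_congr fun j => ?_
      have h1 := heq (u j)
      have h2 : γ * ((u j : ℂ) * γ ^ j) = γ * (X (u j) * γ ^ (j + 1) + Y (u j) * γ ^ j +
          Z (u j) * γ ^ (j - 1)) := by
        have h3 : γ ^ (j + 1) = γ ^ j * γ := zpow_add_one₀ hγ0 j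
        have h4 : γ * γ ^ (j - 1) = γ ^ j := by
          rw [← zpow_one_add₀ hγ0]
          congr 1
          ring
        have h5 : γ * (X (u j) * γ ^ (j + 1) + Y (u j) * γ ^ j + Z (u j) * γ ^ (j - 1)) =
            (γ * (γ * X (u j)) + γ * Y (u j)) * γ ^ j + Z (u j) * (γ * γ ^ (j - 1)) := by
          rw [h3]
          ring
        rw [h5, h4, ← mul_assoc, h1]
        ring
      exact (mul_left_cancel₀ hγ0 h2).symm
  · apply Subtype.ext
    show X (u (j - 1)) + Y (u j) + Z (u (j + 1)) = X (u (j + (1 : ℕ) - ((2 : Fin 3) : ℕ))) +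
      Y (u (j + (1 : ℕ) - ((1 : Fin 3) : ℕ))) + Z (u (j + (1 : ℕ) - ((0 : Fin 3) : ℕ)))
    have h1 : j + (1 : ℕ) - ((2 : Fin 3) : ℕ) = j - 1 := by
      show j + 1 - 2 = j - 1
      ring
    have h2 : j + (1 : ℕ) - ((1 : Fin 3) : ℕ) = j := by
      show j + 1 - 1 = j
      ring
    have h3 : j + (1 : ℕ) - ((0 : Fin 3) : ℕ) = j + 1 := by
      show j + 1 - 0 = j + 1
      ring
    rw [h1, h2, h3]

/-- The result: there are a base `β` with `|β| > 1`, namely the real root of `x ^ 3 = x + 1`, and a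
binary alphabet, namely `{0, 1}`, such that addition is block parallel (with blocks of length
`27`). -/
theorem result : ∃ β : ℝ, 1 < ‖(β : ℂ)‖ ∧ β ^ 3 = β + 1 ∧ BlockParallelAddition {0, 1} (β : ℂ) 27 := by
  obtain ⟨β, h⟩ := Pool.Agent.R474.Pl.exists_base
  refine ⟨β, ?_, h.cube, main h⟩
  rw [Complex.norm_real, Real.norm_eq_abs, abs_of_pos h.pos]
  have := h.lo
  linarith

end Pool.Agent.Results.MP_8e4c55_nt.BinaryAlphabet
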